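import Pool.Agent.BEJ.Stmts

set_option autoImplicit false

namespace Pool.Agent.BEJ.H49

open Set Filter Topology MeasureTheory
open Pool.Agent.BE01 Pool.Agent.BED Pool.Agent.BEJ

/-- Row JSB. -/
theorem jsb (_jta : JtaStmt) (eeb : EebStmt) (yj0 : Yj0Stmt) : JsbStmt := by
  obtain ⟨c, hc, hy⟩ := yj0
  obtain ⟨hE, _⟩ := eeb
  have hc2 : 0 < c ^ 2 := by positivity
  refine ⟨Real.pi / (4 * c ^ 2), by have := Real.pi_pos; positivity, fun s hs => ?_⟩
  have hQ : ‖QQ 0 s‖ ≤ Real.sqrt (Real.pi / s) / 2 := by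
    rw [← integral_gaussian_Ioi s]
    unfold QQ
    refine norm_integral_le_of_norm_le (integrable_exp_neg_mul_sq hs).integrableOn ?_
    refine Filter.Eventually.of_forall fun t => ?_
    rw [norm_mul, Complex.norm_real]
    have h1 : ‖t ^ (2 * 0) * Real.exp (-s * t ^ 2)‖ = Real.exp (-s * t ^ 2) := by
      rw [mul_zero, pow_zero, one_mul, Real.norm_eq_abs, abs_of_pos (Real.exp_pos _)]
    rw [h1]
    calc Real.exp (-s * t ^ 2) * ‖EE t‖ ≤ Real.exp (-s * t ^ 2) * 1 :=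
          mul_le_mul_of_nonneg_left (hE t) (Real.exp_pos _).le
      _ = Real.exp (-s * t ^ 2) := mul_one _
  have hyy : |yy s| ≤ Real.sqrt (Real.pi / s) / 2 := by
    unfold yy
    refine (Complex.abs_im_le_norm _).trans ?_
    rw [norm_mul]
    have h1 : ‖Complex.exp ((s : ℂ) * Complex.I)‖ = 1 := Complex.norm_exp_ofReal_mul_I s
    rw [h1, one_mul]
    exact hQ
  have hsq : yy s ^ 2 ≤ Real.pi / s / 4 := by
    have h1 : yy s ^ 2 = |yy s| ^ 2 := (sq_abs _).symm
    rw [h1]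
    have h2 : |yy s| ^ 2 ≤ (Real.sqrt (Real.pi / s) / 2) ^ 2 :=
      pow_le_pow_left₀ (abs_nonneg _) hyy 2
    have h3 : (Real.sqrt (Real.pi / s) / 2) ^ 2 = Real.pi / s / 4 := by
      rw [div_pow, Real.sq_sqrt (by have := Real.pi_pos; positivity)]
      norm_num
    rw [h3] at h2
    exact h2
  rw [hy s hs, mul_pow] at hsq
  rw [le_div_iff₀ (by positivity)]
  have h4 : s * (c ^ 2 * j0 s ^ 2) ≤ s * (Real.pi / s / 4) := mul_le_mul_of_nonneg_left hsq hs.le
  have h5 : s * (Real.pi / s / 4) = Real.pi / 4 := by field_simp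
  rw [h5] at h4
  linarith

end Pool.Agent.BEJ.H49
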